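import Pool.Agent.H6.GS2.Targets

/-!
# gsw_modules, row CLU: the clusters of near-contact frequencies
-/

set_option autoImplicit false

namespace Pool.Agent.H7.GS3

open Finset Pool.Agent.H6.N4D Pool.Agent.H93 Pool.Agent.H93.GS Pool.Agent.H6.GS2

private lemma rs_shift (lam : ℕ → ℝ) (N n : ℕ) (g : Ex) (β : ℝ) (k : ℤ) :
    rs lam 1 N n g (β - k) = rs lam 1 N n g β := by
  unfold rs
  congr 1
  funext m
  congr 1
  have : -((β - (k : ℝ)) * (m : ℝ)) = -(β * m) + ((k * (m : ℤ) : ℤ) : ℝ) := by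
    push_cast; ring
  rw [this, ee_add, ee_int, mul_one]

private lemma rs_at {th : ℝ} (hth : 0 < th) {lam : ℕ → ℝ} {N n : ℕ} {g : Ex}
    (hg : Opt th lam 1 N n g) {i : ℕ} (hi : i < g.k) : ‖rs lam 1 N n g (g.a i)‖ = th := by
  rw [hg.kt i hi, norm_div, norm_mul]
  have h1 : ‖g.c i‖ ≠ 0 := norm_ne_zero_iff.2 (hg.nz i hi)
  have h2 : ‖((‖g.c i‖ : ℝ) : ℂ)‖ = ‖g.c i‖ := by
    rw [Complex.norm_real, norm_norm]
  have h3 : ‖(th : ℂ)‖ = th := by
    rw [Complex.norm_real, Real.norm_eq_abs, abs_of_pos hth]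
  rw [h2, h3]
  field_simp

private lemma num_bound {th : ℝ} (hth : 0 < th) {lam : ℕ → ℝ} {N n r : ℕ} {g : Ex}
    {Lam : ℝ} {γ : ℕ → ℝ} (hB : T_BNM) (hS : T_BSL) (hl : ∀ m, |lam m| ≤ 1)
    (hN : 10 ≤ N) (hg : Opt th lam 1 N n g) (hL : 40 / th ^ 2 ≤ Lam)
    (hs : ∀ i < r, ∀ l < r, i ≠ l → Lam / (N : ℝ) ≤ nd (γ i - γ l))
    (hc : ∀ i < r, th / 2 ≤ ‖rs lam 1 N n g (γ i)‖) : (r : ℝ) ≤ 10 / th ^ 2 := by
  have hN0 : (10 : ℝ) ≤ N := by exact_mod_cast hN
  have hLp : 0 < Lam := lt_of_lt_of_le (by positivity) hL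
  have h1 := hS 1 N n r Lam γ (fun m => (lam m : ℂ) - g.f m) le_rfl (by omega) hLp
    (fun i hi l hl' hne => by
      have := hs i hi l hl' hne
      simpa using this)
  have h2 := (hB th lam 1 N n g hth hl le_rfl (by omega) hg).2.2.2.1
  have h3 : (r : ℝ) * (th / 2) ^ 2 ≤
      ∑ i ∈ range r, ‖ac 1 N n (fun m => ((lam m : ℂ) - g.f m) * ee (-(γ i * m)))‖ ^ 2 := by
    have h9 : ∀ i ∈ range r, (th / 2) ^ 2 ≤
        ‖ac 1 N n (fun m => ((lam m : ℂ) - g.f m) * ee (-(γ i * m)))‖ ^ 2 := by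
      intro i hi
      have := hc i (Finset.mem_range.1 hi)
      unfold rs at this
      exact pow_le_pow_left₀ (by positivity) this 2
    have h10 := Finset.sum_le_sum h9
    rw [Finset.sum_const, Finset.card_range, nsmul_eq_mul] at h10
    exact h10
  have h4 : (1 : ℝ) / N ≤ 1 / 10 := by
    apply one_div_le_one_div_of_le (by norm_num) hN0
  have h5 : (r : ℝ) / (2 * Lam) ≤ r * th ^ 2 / 80 := by
    rw [div_le_iff₀ (by positivity)]
    have : 40 ≤ Lam * th ^ 2 := by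
      rw [div_le_iff₀ (by positivity)] at hL; exact hL
    have hr : (0 : ℝ) ≤ r := Nat.cast_nonneg r
    nlinarith
  have h6 : (0 : ℝ) ≤ r / (2 * Lam) := by positivity
  have h7 : (0 : ℝ) ≤ 1 / N := by positivity
  have hr0 : (0 : ℝ) ≤ r * th ^ 2 := by positivity
  push_cast at h1 h2
  have h8 : (r : ℝ) * (th / 2) ^ 2 ≤ (1 + 1 / 10 + r * th ^ 2 / 80) * (1 + 1 / 10) := by
    refine h3.trans (h1.trans ?_)
    apply mul_le_mul (by linarith) (by linarith) _ (by positivity)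
    unfold ar
    apply div_nonneg _ (by positivity)
    apply mul_nonneg (Finset.sum_nonneg fun _ _ => by positivity)
    simp
  rw [le_div_iff₀ (by positivity)]
  nlinarith

theorem pf_CLU (hN : T_NCP) (hE : T_SEP) (hB : T_BNM) (hS : T_BSL) : T_CLU := by
  intro th d₁ hth hth1 hd hd1
  obtain ⟨κ', hκ', hκ'2, hN'⟩ := hN th d₁ hth hth1 hd hd1
  refine ⟨κ', hκ', hκ'2, ?_⟩
  intro Lam hLam
  have hL1 : 1 ≤ max Lam (40 / th ^ 2) := hLam.trans (le_max_left _ _)
  obtain ⟨P₁, L₁, κ₁, a1, a2, a3, a4, a5⟩ := hN' (max Lam (40 / th ^ 2)) hL1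
  obtain ⟨P₂, C, κ₂, b1, b2, b3, b4, b5⟩ := hE th (max Lam (40 / th ^ 2)) hth hth1 hL1
  refine ⟨max P₁ P₂, max L₁ (max C 10), min κ₁ κ₂, le_max_of_le_left a1,
    le_max_of_le_left a2, lt_min a3 b3, (min_le_left _ _).trans a4, ?_⟩
  intro lam P L n g hlam hL hP hg hD hgap
  have hLL₁ : L₁ ≤ L := (le_max_left _ _).trans hL
  have hLC : C ≤ L := ((le_max_left _ _).trans (le_max_right _ _)).trans hL
  have hL10 : 10 ≤ L := ((le_max_right _ _).trans (le_max_right _ _)).trans hL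
  have hP₁ : P₁ ≤ P := (le_max_left _ _).trans hP
  have hP₂ : P₂ ≤ P := (le_max_right _ _).trans hP
  have hP1 : 1 ≤ P := a1.trans hP₁
  have hgap1 : gapq th lam 1 P L n ≤ κ₁ ^ 2 := hgap.trans
    (pow_le_pow_left₀ (le_min a3.le b3.le) (min_le_left _ _) 2)
  have hgap2 : gapq th lam 1 P L n ≤ κ₂ ^ 2 := hgap.trans
    (pow_le_pow_left₀ (le_min a3.le b3.le) (min_le_right _ _) 2)
  have hNN : 10 ≤ P * L := by nlinarith
  have hNr : (0 : ℝ) < ((P * L : ℕ) : ℝ) := by
    have : 0 < P * L := by omega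
    exact_mod_cast this
  have ncp := a5 lam P L n g hlam hLL₁ hP₁ hg hgap1
  have sep := (b5 lam 1 P L n g hlam le_rfl (by omega) hP₂ hg hD hgap2).1
  clear a5 b5 hN' hN hE
  set Lam1 := max Lam (40 / th ^ 2) with hLam1
  set N := P * L with hNdef
  have hFr : ∀ (r : ℕ) (γ : ℕ → ℝ),
      (∀ i < r, ∀ l < r, i ≠ l → Lam1 / (N : ℝ) ≤ nd (γ i - γ l)) →
      (∀ i < r, th - κ' ≤ ‖rs lam 1 N n g (γ i)‖) → r ≤ ⌊10 / th ^ 2⌋₊ := by
    intro r γ h1 h2
    apply Nat.le_floor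
    exact num_bound hth hB hS hlam hNN hg (le_max_right _ _) h1
      (fun i hi => by linarith [h2 i hi])
  let Pr : ℕ → Prop := fun r => ∃ γ : ℕ → ℝ, g.k ≤ r ∧ (∀ i < g.k, γ i = g.a i) ∧
    (∀ i < r, ∀ l < r, i ≠ l → Lam1 / (N : ℝ) ≤ nd (γ i - γ l)) ∧
    (∀ i < r, th - κ' ≤ ‖rs lam 1 N n g (γ i)‖)
  have hPr0 : Pr g.k := by
    refine ⟨g.a, le_rfl, fun _ _ => rfl, ?_, ?_⟩
    · intro i hi l hl hne
      have := sep i hi l hl hne
      simpa using this
    · intro i hi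
      rw [rs_at hth hg hi]; linarith
  have hPrR : ∀ r, Pr r → r ≤ ⌊10 / th ^ 2⌋₊ := by
    rintro r ⟨γ, -, -, h3, h4⟩
    exact hFr r γ h3 h4
  classical
  obtain ⟨r, hr1, hr2⟩ : ∃ r, Pr r ∧ ¬ Pr (r + 1) := by
    by_contra hc
    push Not at hc
    have hall : ∀ k, Pr (g.k + k) := by
      intro k
      induction k with
      | zero => simpa using hPr0
      | succ k ih => have := hc _ ih; rwa [add_assoc] at this
    have := hPrR _ (hall (⌊10 / th ^ 2⌋₊ + 1))
    omega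
  obtain ⟨γ, c1, c2, c3, c4⟩ := hr1
  have hrR : (r : ℝ) ≤ 10 / th ^ 2 :=
    (Nat.le_floor_iff (by positivity)).1 (hFr r γ c3 c4)
  refine ⟨r, γ, hrR, c1, c2, ?_, ?_⟩
  · intro i hi l hl hne
    refine le_trans ?_ (c3 i hi l hl hne)
    exact div_le_div_of_nonneg_right (le_max_left _ _) hNr.le
  · intro β hβ
    obtain ⟨i, hi, hclose⟩ : ∃ i < r, nd (β - γ i) < Lam1 / (N : ℝ) := by
      by_contra hc
      push Not at hc
      apply hr2
      refine ⟨fun i => if i < r then γ i else β, by omega, ?_, ?_, ?_⟩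
      · intro i hi
        have : i < r := by omega
        simp only [this, if_true]
        exact c2 i hi
      · intro i hi l hl hne
        by_cases hi' : i < r
        · by_cases hl' : l < r
          · simp only [hi', hl', if_true]
            exact c3 i hi' l hl' hne
          · simp only [hi', hl', if_true, if_false]
            rw [nd_sub_comm]
            exact hc i hi'
        · by_cases hl' : l < r
          · simp only [hi', hl', if_true, if_false]
            exact hc l hl'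
          · exfalso; omega
      · intro i hi
        by_cases hi' : i < r
        · simp only [hi', if_true]
          exact c4 i hi'
        · simp only [hi', if_false]
          exact hβ
    refine ⟨i, hi, ?_⟩
    obtain ⟨k, hk⟩ := exists_int (β - γ i)
    have e1 : γ i + (β - γ i - k) * (N : ℝ) / (N : ℝ) = β - k := by
      field_simp; ring
    have e2 : |(β - γ i - k) * (N : ℝ)| = nd (β - γ i) * N := by
      rw [abs_mul, hk, abs_of_pos hNr]
    have e3 := ncp (γ i) ((β - γ i - k) * (N : ℝ))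
      (by rw [e2]; exact ((lt_div_iff₀ hNr).1 hclose).le) (c4 i hi)
      (by rw [e1, rs_shift]; exact hβ)
    rw [e2] at e3
    exact (le_div_iff₀ hNr).2 e3

end Pool.Agent.H7.GS3
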