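import Pool.Agent.H56.G3.TS

/-!
# gs3_modules, row SH: near optimal sums of overlapping windows
-/

set_option autoImplicit false

namespace Pool.Agent.H7.GS3

open Finset Pool.Agent.H6.N4D Pool.Agent.H93.EB Pool.Agent.H93.GS Pool.Agent.H56.G3

private lemma exp_small {u rho : ℝ} (hu : 0 ≤ u) (hu1 : u ≤ rho / 4) (hr : rho ≤ 1 / 100)
    (hr0 : 0 < rho) : Real.exp u ≤ 1 + 26 / 100 * rho := by
  have h1 : |u| ≤ 1 := by rw [abs_of_nonneg hu]; linarith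
  have h2 := Real.abs_exp_sub_one_sub_id_le h1
  have h3 := (abs_le.1 h2).2
  have h4 : u ^ 2 ≤ rho / 4 * (1 / 400) := by
    have : u * u ≤ rho / 4 * (1 / 400) :=
      mul_le_mul hu1 (by linarith) hu (by linarith)
    nlinarith
  nlinarith

private lemma sizes {S : Par} {t : ℤ} {w : ℕ} (hS : S.Ok) (hr : S.rho ≤ 1 / 100)
    (hw : (w : ℝ) * S.h ≤ S.rho / 4) (hN : (100 : ℝ) ≤ Nt S t)
    (h1 : S.rho * S.n t < Nt S t + 1) :
    S.n t ≤ S.n (t + w) ∧ Nt S t ≤ Nt S (t + w) ∧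
      (S.n (t + w) : ℝ) ≤ S.n t + 28 / 100 * Nt S t ∧
      (Nt S (t + w) : ℝ) ≤ 102 / 100 * Nt S t := by
  have hx : S.x (t + w) = S.x t * Real.exp (S.h * (w : ℕ)) := by
    rw [Par.x_add]; push_cast; rfl
  have hwn : (0 : ℝ) ≤ (w : ℝ) * S.h := mul_nonneg (Nat.cast_nonneg _) hS.hh.le
  have he := exp_small (u := (w : ℝ) * S.h) hwn hw hr hS.hr0
  have hx0 := Par.x_pos (S := S) t
  have hxm : S.x t ≤ S.x (t + w) := by
    rw [hx]
    have : 1 ≤ Real.exp (S.h * (w : ℕ)) := by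
      rw [mul_comm]; exact Real.one_le_exp hwn
    nlinarith
  have hn : S.n t ≤ S.n (t + w) := Nat.floor_le_floor hxm
  have hnR : (S.n t : ℝ) ≤ S.n (t + w) := by exact_mod_cast hn
  have hNm : Nt S t ≤ Nt S (t + w) :=
    Nat.floor_le_floor (mul_le_mul_of_nonneg_left hnR hS.hr0.le)
  have h2 : S.x t < S.n t + 1 := Nat.lt_floor_add_one _
  have h3 : (S.n (t + w) : ℝ) ≤ S.x (t + w) := Nat.floor_le (Par.x_pos _).le
  have h4 : S.x (t + w) ≤ S.x t * (1 + 26 / 100 * S.rho) := by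
    rw [hx, mul_comm S.h]
    exact mul_le_mul_of_nonneg_left he hx0.le
  have hr0 := hS.hr0
  have h5 : S.x t * (1 + 26 / 100 * S.rho) ≤ (S.n t + 1) * (1 + 26 / 100 * S.rho) :=
    mul_le_mul_of_nonneg_right h2.le (by linarith)
  have h6 : (S.n (t + w) : ℝ) ≤ S.n t + 28 / 100 * Nt S t := by nlinarith
  refine ⟨hn, hNm, h6, ?_⟩
  have h7 : (Nt S (t + w) : ℝ) ≤ S.rho * S.n (t + w) :=
    Nat.floor_le (mul_nonneg hr0.le (Nat.cast_nonneg _))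
  have h8 : S.rho * S.n (t + w) ≤ S.rho * (S.n t + 28 / 100 * Nt S t) :=
    mul_le_mul_of_nonneg_left h6 hr0.le
  have h9 : S.rho * (28 / 100 * Nt S t) ≤ 1 / 100 * (28 / 100 * Nt S t) :=
    mul_le_mul_of_nonneg_right hr (by linarith)
  nlinarith

theorem pf_SH (hRO : T_RO) (hSN : T_SN) : T_SH := by
  intro th κ K r hth hth1 hκ hκ1 hK
  obtain ⟨X₁, hX⟩ := hSN K r (100 + 20 / (th ^ 2 * κ)) hK
  refine ⟨X₁, ?_⟩
  intro S k₁ lam t w g g' hS hX1 hB ht htw hw hG hg hg'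
  obtain ⟨-, -, -, hr, -, hn, -, -⟩ := hX S k₁ hS hX1
  obtain ⟨a1, -, a3, -, -, -, a7⟩ := hn t ht
  have a7 := a7 0 (by omega)
  have hq : 0 < 20 / (th ^ 2 * κ) := by positivity
  have hN : (100 : ℝ) ≤ Nt S t := by linarith
  obtain ⟨b1, b2, b3, b4⟩ := sizes hS.ok hr hw hN a3
  have c1 : S.n (t + w) ≤ S.n t + Nt S t := by
    have : (S.n (t + w) : ℝ) ≤ ((S.n t + Nt S t : ℕ) : ℝ) := by push_cast; linarith
    exact_mod_cast this
  have c2 : ((S.n t + Nt S t - S.n (t + w) : ℕ) : ℝ) =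
      S.n t + Nt S t - S.n (t + w) := by rw [Nat.cast_sub c1]; push_cast; ring
  have c3 : (Nt S t : ℝ) / 2 ≤ ((S.n t + Nt S t - S.n (t + w) : ℕ) : ℝ) := by
    rw [c2]; linarith
  have c4 : 1 ≤ S.n t + Nt S t - S.n (t + w) := by
    have : (1 : ℝ) ≤ ((S.n t + Nt S t - S.n (t + w) : ℕ) : ℝ) := by linarith
    exact_mod_cast this
  have c5 : 2 * Nt S t ≤ 8 * (S.n t + Nt S t - S.n (t + w)) := by
    have : ((2 * Nt S t : ℕ) : ℝ) ≤ ((8 * (S.n t + Nt S t - S.n (t + w)) : ℕ) : ℝ) := by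
      push_cast [-Nat.cast_sub]; linarith
    exact_mod_cast this
  have c6 : S.n (t + w) + Nt S (t + w) ≤ S.n t + 2 * Nt S t := by
    have : ((S.n (t + w) + Nt S (t + w) : ℕ) : ℝ) ≤ ((S.n t + 2 * Nt S t : ℕ) : ℝ) := by
      push_cast; linarith
    exact_mod_cast this
  have c7 := (hG 0 (by rw [hS.hK]; omega) 2 (Or.inr rfl)).1
  have key := hRO th lam κ (2 ^ lv S.X 0) (2 * Nt S t) (S.n t) (Nt S t) (S.n t)
    (Nt S (t + w)) (S.n (t + w)) (S.n t + Nt S t - S.n (t + w)) (S.n (t + w)) g g'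
    hth hth1 hB Nat.one_le_two_pow hκ hκ1 le_rfl (by omega) b1 c6 b1 (by omega) le_rfl
    (by omega) c4 c5 c7 hg hg'
  refine ⟨b1, c1, c3, key.trans ?_⟩
  have d1 : (((2 ^ lv S.X 0 : ℕ) : ℝ) / ((2 * Nt S t : ℕ) : ℝ)) ≤ th ^ 2 * κ / 40 := by
    rw [div_le_iff₀ (by push_cast; linarith)]
    push_cast
    have e1 : 20 / (th ^ 2 * κ) * 2 ^ lv S.X 0 ≤ Nt S t := by
      refine le_trans ?_ a7
      apply mul_le_mul_of_nonneg_right (by linarith) (by positivity)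
    have e2 : (0 : ℝ) < th ^ 2 * κ := by positivity
    calc (2 : ℝ) ^ lv S.X 0 = th ^ 2 * κ / 20 * (20 / (th ^ 2 * κ) * 2 ^ lv S.X 0) := by
          field_simp
      _ ≤ th ^ 2 * κ / 20 * Nt S t := mul_le_mul_of_nonneg_left e1 (by positivity)
      _ = th ^ 2 * κ / 40 * (2 * Nt S t) := by ring
  have d2 : 40000 / th ^ 2 * (((2 ^ lv S.X 0 : ℕ) : ℝ) / ((2 * Nt S t : ℕ) : ℝ)) ≤ 1000 * κ := by
    calc 40000 / th ^ 2 * (((2 ^ lv S.X 0 : ℕ) : ℝ) / ((2 * Nt S t : ℕ) : ℝ))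
        ≤ 40000 / th ^ 2 * (th ^ 2 * κ / 40) := mul_le_mul_of_nonneg_left d1 (by positivity)
      _ = 1000 * κ := by field_simp; norm_num
  linarith

end Pool.Agent.H7.GS3
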