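import Pool.Agent.H78.GS.TA3

/-!
# gs3_modules, row ASBI: the part of the bundle below a cut point is invariant
-/

set_option autoImplicit false

namespace Pool.Agent.H7.GS3

open Finset Pool.Agent.H6.N4D Pool.Agent.H78.GS

private lemma bij_filter {R : ℕ → ℕ → Prop} {A A' : Finset ℕ} {g g' : ℕ → ℝ} {u e : ℝ}
    (hB : Bij R A A') (h1 : ∀ j ∈ A, ∀ i ∈ A', R j i → |g' i - g j| ≤ e)
    (h2 : ∀ j ∈ A, e < |g j - u|) :
    Bij R (A.filter (fun j => g j ≤ u)) (A'.filter (fun j => g' j ≤ u)) := by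
  constructor
  · intro j hj
    rw [mem_filter] at hj
    obtain ⟨i, ⟨hi, hR⟩, hu⟩ := hB.1 j hj.1
    have a1 := h1 j hj.1 i hi hR
    have a2 := h2 j hj.1
    rw [abs_of_nonpos (by linarith [hj.2])] at a2
    have a3 := (abs_le.1 a1).2
    refine ⟨i, ⟨mem_filter.2 ⟨hi, by linarith⟩, hR⟩, ?_⟩
    intro i' hi'
    exact hu i' ⟨(mem_filter.1 hi'.1).1, hi'.2⟩
  · intro i hi
    rw [mem_filter] at hi
    obtain ⟨j, ⟨hj, hR⟩, hu⟩ := hB.2 i hi.1
    have a1 := h1 j hj i hi.1 hR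
    have a2 := h2 j hj
    have a3 := (abs_le.1 a1).1
    have a4 : g j ≤ u := by
      by_contra hc
      push Not at hc
      rw [abs_of_pos (by linarith)] at a2
      linarith [hi.2]
    refine ⟨j, ⟨mem_filter.2 ⟨hj, a4⟩, hR⟩, ?_⟩
    intro j' hj'
    exact hu j' ⟨(mem_filter.1 hj'.1).1, hj'.2⟩

private lemma cnt_three {S : Par} {v : ℤ} {R : ℤ → ℕ → ℕ → Prop} {F : ℤ → Finset ℕ}
    {G : ℤ → ℕ → ℝ} {u e : ℝ} :
    S.cnt (fun t => t + v ∈ S.I ∧ ¬ Bij (R t) (sbl F G u t) (sbl F G u (t + v))) ≤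
      S.cnt (fun t => t + v ∈ S.I ∧ ¬ Bij (R t) (F t) (F (t + v))) +
      (S.cnt (fun t => t + v ∈ S.I ∧ ∃ j ∈ F t, ∃ i ∈ F (t + v),
        R t j i ∧ e < |G (t + v) i - G t j|) +
      S.cnt (fun t => ∃ j ∈ F t, |G t j - u| ≤ e)) := by
  refine le_trans ?_ (add_le_add le_rfl (Par.cnt_or _ _))
  apply Par.cnt_le_add
  intro t _ h
  obtain ⟨h1, h2⟩ := h
  by_contra hc
  push Not at hc
  obtain ⟨c1, c2⟩ := hc
  apply h2
  exact bij_filter (c1 h1) (fun j hj i hi hR => c2.1 h1 j hj i hi hR) c2.2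

theorem pf_SBI : T_SBI := by
  intro S RP RW e₁ e₂ e₃ u F G hN h1 h2 h3 hI hA hu
  have hW : 0 ≤ ∑ p ∈ S.Q, 1 / (p : ℝ) := Finset.sum_nonneg (fun p _ => by positivity)
  have h3N : 0 ≤ e₃ * S.N := mul_nonneg h3 hN
  constructor
  · have key : ∀ p ∈ S.Q, 1 / (p : ℝ) *
        S.cnt (fun t => t - S.l p ∈ S.I ∧
          ¬ Bij (RP p t) (sbl F G u t) (sbl F G u (t - S.l p))) ≤
        1 / (p : ℝ) * S.cnt (fun t => t - S.l p ∈ S.I ∧
          ¬ Bij (RP p t) (F t) (F (t - S.l p))) +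
        (1 / (p : ℝ) * S.cnt (fun t => t - S.l p ∈ S.I ∧ ∃ j ∈ F t, ∃ i ∈ F (t - S.l p),
          RP p t j i ∧ e₂ < |G (t - S.l p) i - G t j|) + 1 / (p : ℝ) * (e₃ * S.N)) := by
      intro p _
      rw [← mul_add, ← mul_add]
      apply mul_le_mul_of_nonneg_left _ (by positivity)
      have := cnt_three (S := S) (v := - S.l p) (R := RP p) (F := F) (G := G) (u := u)
        (e := e₂)
      simp only [← sub_eq_add_neg] at this
      linarith
    refine (Finset.sum_le_sum key).trans ?_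
    rw [Finset.sum_add_distrib, Finset.sum_add_distrib, ← Finset.sum_mul]
    have a1 := hI.pr
    have a2 := hA.pr
    nlinarith
  · intro w hw1 hw2
    have := cnt_three (S := S) (v := (w : ℤ)) (R := RW w) (F := F) (G := G) (u := u)
        (e := e₂)
    have a1 := hI.sh w hw1 hw2
    have a2 := hA.sh w hw1 hw2
    have a3 : 0 ≤ (∑ p ∈ S.Q, 1 / (p : ℝ)) * (e₃ * S.N) := mul_nonneg hW h3N
    nlinarith

end Pool.Agent.H7.GS3
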