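import Pool.Agent.H3.GS3.TB

/-!
# gs3_modules, row WPH: the phases of two complex numbers which are close
-/

set_option autoImplicit false

namespace Pool.Agent.H7.GS3

open Finset Pool.Agent.H6.N4D Pool.Agent.H93.EB Pool.Agent.H93.GS Pool.Agent.H56.G3
  Pool.Agent.H3.GS3

private lemma four_nd_le (u : ℝ) : 4 * nd u ≤ ‖ee u - 1‖ := by
  have h1 : ee u = ee (u - round u) := by
    rw [sub_eq_add_neg, ee_add]
    have : (-(round u : ℝ)) = ((-round u : ℤ) : ℝ) := by push_cast; rfl
    rw [this, ee_int, mul_one]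
  have h2 : ‖ee (u - round u) - 1‖ = ‖2 * Real.sin (2 * Real.pi * (u - round u) / 2)‖ := by
    unfold ee
    rw [mul_comm]
    exact Complex.norm_exp_I_mul_ofReal_sub_one (2 * Real.pi * (u - round u))
  rw [h1, h2]
  have h3 : 2 * Real.pi * (u - round u) / 2 = Real.pi * (u - round u) := by ring
  rw [h3, norm_mul, Real.norm_eq_abs, Real.norm_eq_abs, abs_of_pos (by norm_num : (0 : ℝ) < 2)]
  have h4 : |Real.sin (Real.pi * (u - round u))| = Real.sin (Real.pi * nd u) := by
    unfold nd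
    have hp : |u - round u| ≤ 1 / 2 := abs_sub_round u
    have hs : 0 ≤ Real.sin (Real.pi * |u - round u|) := by
      apply Real.sin_nonneg_of_nonneg_of_le_pi
      · positivity
      · nlinarith [Real.pi_pos]
    rcases le_total 0 (u - round u) with h | h
    · rw [abs_of_nonneg h] at hs ⊢
      rw [abs_of_nonneg hs]
    · rw [abs_of_nonpos h] at hs ⊢
      rw [mul_neg, Real.sin_neg] at hs ⊢
      rw [abs_of_nonpos (by linarith)]
  rw [h4]
  have h5 := Real.mul_le_sin (x := Real.pi * nd u) (mul_nonneg Real.pi_pos.le (nd_nonneg u))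
    (by nlinarith [Real.pi_pos, nd_le_half u])
  have h6 : 2 / Real.pi * (Real.pi * nd u) = 2 * nd u := by
    field_simp
  linarith

private lemma four_nd_sub_le (x y : ℝ) : 4 * nd (x - y) ≤ ‖ee x - ee y‖ := by
  have h := four_nd_le (x - y)
  have h1 : ee x - ee y = ee y * (ee (x - y) - 1) := by
    rw [mul_sub, ← ee_add, mul_one]
    congr 2; ring
  rw [h1, norm_mul, norm_ee, one_mul]
  exact h

private lemma polar (z : ℂ) : ((‖z‖ : ℝ) : ℂ) * ee (ar2 z) = z := by
  unfold ee ar2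
  have : 2 * Real.pi * (Complex.arg z / (2 * Real.pi)) = Complex.arg z := by
    field_simp
  rw [this]
  exact Complex.norm_mul_exp_arg_mul_I z

theorem pf_WPH : T_WPH := by
  intro kap δ z w hk hz hzw hδ
  have h1 := four_nd_sub_le (ar2 z) (ar2 w)
  have h2 : ‖z‖ * ‖ee (ar2 z) - ee (ar2 w)‖ ≤ 2 * δ := by
    calc ‖z‖ * ‖ee (ar2 z) - ee (ar2 w)‖
        = ‖((‖z‖ : ℝ) : ℂ) * (ee (ar2 z) - ee (ar2 w))‖ := by
          rw [norm_mul, Complex.norm_real, norm_norm]
      _ = ‖(z - w) + (((‖w‖ - ‖z‖ : ℝ) : ℂ)) * ee (ar2 w)‖ := by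
          congr 1
          rw [mul_sub, polar]
          push_cast
          rw [sub_mul, polar]
          ring
      _ ≤ ‖z - w‖ + ‖(((‖w‖ - ‖z‖ : ℝ) : ℂ)) * ee (ar2 w)‖ := norm_add_le _ _
      _ ≤ δ + δ := by
          apply add_le_add hzw
          rw [norm_mul, norm_ee, mul_one, Complex.norm_real, Real.norm_eq_abs]
          refine le_trans ?_ hzw
          rw [norm_sub_rev z w]
          exact abs_norm_sub_norm_le w z
      _ = 2 * δ := by ring
  have h3 := nd_nonneg (ar2 z - ar2 w)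
  have hδ0 : 0 ≤ δ := (norm_nonneg _).trans hzw
  rw [le_div_iff₀ hk]
  have h4 : kap * (4 * nd (ar2 z - ar2 w)) ≤ 2 * δ :=
    (mul_le_mul hz h1 (by linarith) (norm_nonneg _)).trans h2
  nlinarith

end Pool.Agent.H7.GS3
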